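import Pool.Agent.H146R3.CloneToMonoid
import Pool.Agent.H146R3.MonoidToGroup

/-!
Question 2: the lattice of local clones on a countably infinite set embeds into the lattice of
closed permutation groups.
-/

namespace Pool.Agent.Results.MP_cac0a5_al.CloneToGroup

universe u

open Pool.Agent.H146R3

/-- Let `X` be a countably infinite set.  There is an injective map from the lattice of local clones
on `X` to the lattice of closed permutation groups on `X` which preserves binary meets and
joins, and indeed the meets and joins of all nonempty families. -/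
theorem result (X : Type u) [Countable X] [Infinite X] :
    ∃ φ : LocalClone X → LocalGroup X, Function.Injective φ ∧
      (∀ C D, φ (C ⊓ D) = φ C ⊓ φ D) ∧ (∀ C D, φ (C ⊔ D) = φ C ⊔ φ D) ∧
      ∀ S : Set (LocalClone X), S.Nonempty →
        φ (sInf S) = sInf (φ '' S) ∧ φ (sSup S) = sSup (φ '' S) := by
  have hinf : Infinite (Tup X) :=
    Infinite.of_injective (fun x : X => (some ⟨0, fun _ => x⟩ : Tup X)) (by
      intro x y h
      have h1 := eq_of_heq (Sigma.mk.inj (Option.some.inj h)).2
      exact congrFun h1 0)
  have hinf2 : Infinite (W X) :=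
    Infinite.of_injective (fun n : ℕ => (bv (n, []) : W X)) (by
      intro m n h
      have h1 := (Finsupp.single_eq_single_iff _ _ _ _).mp h
      rcases h1 with h2 | h2
      · exact congrArg Prod.fst h2.1
      · exact absurd h2.1 one_ne_zero)
  obtain ⟨e⟩ := nonempty_equiv_of_countable (α := Tup X) (β := X)
  obtain ⟨e'⟩ := nonempty_equiv_of_countable (α := W X) (β := X)
  obtain ⟨y⟩ := nonempty_equiv_of_countable (α := ℕ) (β := X)
  have h : CompleteEmb (LocalGroup.congr e' ∘ (toGrp : LocalMonoid X → LocalGroup (W X)) ∘
      LocalMonoid.congr e ∘ (toMon : LocalClone X → LocalMonoid (Tup X))) :=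
    (CompleteEmb.of_orderIso (LocalGroup.congr e')).comp ((toGrp_completeEmb y).comp
      ((CompleteEmb.of_orderIso (LocalMonoid.congr e)).comp toMon_completeEmb))
  exact ⟨_, h.1, h.map_inf, h.map_sup, h.2⟩

end Pool.Agent.Results.MP_cac0a5_al.CloneToGroup
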